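import Mathlib
import Pool.Agent.Helper591.ThreeMain

open Finset

namespace Pool.Agent.Results.MP_a8fd3e_co.LargeGroups

/-- no three pairwise distinct elements of `H` have sum zero -/
def Admissible {G : Type} [AddCommGroup G] (H : Finset G) : Prop :=
  ∀ x ∈ H, ∀ y ∈ H, ∀ z ∈ H, x ≠ y → x ≠ z → y ≠ z → x + y + z ≠ 0

/-- the largest size of an admissible subset of `G` -/
noncomputable def D (G : Type) [AddCommGroup G] : ℕ :=
  sSup {k : ℕ | ∃ H : Finset G, Admissible H ∧ H.card = k}

/-- the number of elements of `G` of the form `g + g` -/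
noncomputable def numDoubles (G : Type) [AddCommGroup G] : ℕ :=
  Nat.card {x : G // ∃ g : G, g + g = x}

/-- `D G` really is the maximum -/
theorem D_isGreatest (G : Type) [AddCommGroup G] [Finite G] :
    IsGreatest {k : ℕ | ∃ H : Finset G, Admissible H ∧ H.card = k} (D G) := by
  have : Fintype G := Fintype.ofFinite G
  have hne : {k : ℕ | ∃ H : Finset G, Admissible H ∧ H.card = k}.Nonempty :=
    ⟨0, ∅, fun x hx => absurd hx (Finset.notMem_empty x), rfl⟩
  have hbdd : BddAbove {k : ℕ | ∃ H : Finset G, Admissible H ∧ H.card = k} := by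
    refine ⟨Fintype.card G, ?_⟩
    rintro k ⟨H, _, rfl⟩
    exact Finset.card_le_univ H
  exact ⟨Nat.sSup_mem hne hbdd, fun k hk => le_csSup hbdd hk⟩

theorem D_eq {G : Type} [AddCommGroup G] [Finite G] {k : ℕ}
    (h1 : ∃ H : Finset G, Admissible H ∧ H.card = k)
    (h2 : ∀ H : Finset G, Admissible H → H.card ≤ k) : D G = k := by
  apply IsGreatest.unique (D_isGreatest G)
  refine ⟨h1, ?_⟩
  rintro m ⟨H, hH, rfl⟩
  exact h2 H hH

theorem not_rep3 {G : Type} [AddCommGroup G] {H : Finset G} (h : Admissible H) :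
    ¬ Pool.Agent.Helper591.Three.Rep3 H 0 := by
  rintro ⟨a, ha, b, hb, c, hc, hab, hac, hbc, hs⟩
  exact h a ha b hb c hc hab hac hbc hs

theorem admissible_of {G : Type} [AddCommGroup G] {H : Finset G}
    (h : ¬ Pool.Agent.Helper591.Three.Rep3 H 0) : Admissible H :=
  fun a ha b hb c hc hab hac hbc hs => h ⟨a, ha, b, hb, c, hc, hab, hac, hbc, hs⟩

theorem numDoubles_eq (G : Type) [AddCommGroup G] [Fintype G] [DecidableEq G] :
    numDoubles G = Pool.Agent.Helper591.Three.doubles G := by
  unfold numDoubles Pool.Agent.Helper591.Three.doubles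
  rw [Nat.card_eq_fintype_card, Fintype.card_subtype]
  apply congrArg Finset.card
  ext y
  simp

/-- Exact value of `D` for all large groups whose order has a prime factor `2` mod `3`, and
asymptotic value for all groups whose order only has prime factors `1` mod `3`. -/
theorem result :
    (∀ p : ℕ, p.Prime → p % 3 = 2 → ∃ N : ℕ, ∀ (G : Type) [AddCommGroup G] [Finite G],
      N ≤ Nat.card G → p ∣ Nat.card G →
      (∀ q : ℕ, q.Prime → q % 3 = 2 → q ∣ Nat.card G → p ≤ q) →
      ((p ≠ 2 ∨ 2 < numDoubles G) → 3 * p * D G = (p + 1) * Nat.card G) ∧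
      ((p = 2 ∧ numDoubles G ≤ 2) → 2 * D G = Nat.card G + 2)) ∧
    (∀ ε : ℝ, 0 < ε → ∃ N : ℕ, ∀ (G : Type) [AddCommGroup G] [Finite G], N ≤ Nat.card G →
      (∀ q : ℕ, q.Prime → q ∣ Nat.card G → q % 3 ≠ 2) →
      (D G : ℝ) ≤ (1 / 3 + ε) * Nat.card G) ∧
    (∀ (G : Type) [AddCommGroup G] [Finite G], 1 < Nat.card G →
      (∀ q : ℕ, q.Prime → q ∣ Nat.card G → q % 3 = 1) → Nat.card G + 5 ≤ 3 * D G) := by
  classical
  refine ⟨?_, ?_, ?_⟩
  · intro p hp h3
    obtain ⟨N, hN⟩ := Pool.Agent.Helper591.Three.upper_two hp h3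
    refine ⟨N, ?_⟩
    intro G _ _ hNG hpd hleast
    have : Fintype G := Fintype.ofFinite G
    rw [Nat.card_eq_fintype_card] at hNG hpd hleast ⊢
    rw [numDoubles_eq]
    constructor
    · intro hcase
      obtain ⟨A, hA, hAc⟩ := Pool.Agent.Helper591.Three.lower_two hp h3 hpd
      have hD : D G = A.card := by
        apply D_eq ⟨A, fun x hx y hy z hz _ _ _ => hA x hx y hy z hz, rfl⟩
        intro H hH
        by_contra hcon
        push Not at hcon
        apply not_rep3 hH
        apply hN G hNG hleast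
        · intro h2
          rcases hcase with h | h
          · exact absurd h2 h
          · exact h
        · rw [← hAc]
          have := hp.pos
          exact Nat.mul_lt_mul_of_pos_left hcon (by positivity)
      rw [hD, hAc]
    · rintro ⟨rfl, hd⟩
      obtain ⟨A, hA, hAc⟩ := Pool.Agent.Helper591.Three.lower_exc hpd hd
      have hD : D G = A.card := by
        apply D_eq ⟨A, admissible_of hA, rfl⟩
        intro H hH
        by_contra hcon
        push Not at hcon
        apply not_rep3 hH
        apply Pool.Agent.Helper591.Three.rep3_of_half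
        omega
      rw [hD, hAc]
  · intro ε hε
    obtain ⟨N, hN⟩ := Pool.Agent.Helper591.Three.upper_eps hε
    refine ⟨N, ?_⟩
    intro G _ _ hNG hq
    have : Fintype G := Fintype.ofFinite G
    rw [Nat.card_eq_fintype_card] at hNG hq ⊢
    obtain ⟨H, hH, hHc⟩ := (D_isGreatest G).1
    rw [← hHc]
    exact hN G hNG hq H 0 (not_rep3 hH)
  · intro G _ _ h1 hq
    have : Fintype G := Fintype.ofFinite G
    rw [Nat.card_eq_fintype_card] at h1 hq ⊢
    obtain ⟨A, hA, hAc⟩ := Pool.Agent.Helper591.Three.lower_one (Fintype.card G) G rfl h1 hq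
    have := (D_isGreatest G).2 ⟨A, admissible_of hA, rfl⟩
    omega

end Pool.Agent.Results.MP_a8fd3e_co.LargeGroups
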